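import Pool.Agent.H.MP_498a73_pr.G

namespace Pool.Agent.Results.MP_498a73_pr.Yes

open Pool.Agent.H.MP_498a73_pr Filter Topology

theorem result (lam : ℝ) (hlam : 0 < lam) (n k : ℕ → ℕ) (F : ℕ → Type) [∀ j, Field (F j)]
    [∀ j, Fintype (F j)] [∀ j, DecidableEq (F j)] (hk : ∀ j, 1 ≤ k j ∧ k j ≤ n j)
    (hn : Tendsto n atTop atTop) (hq : Tendsto (fun j => Fintype.card (F j)) atTop atTop)
    (hN : Tendsto (fun j => ((n j).choose (k j) : ℝ) / Fintype.card (F j)) atTop (𝓝 lam)) :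
    Tendsto (fun j => probMDS (F j) (n j) (k j)) atTop (𝓝 (Real.exp (-lam))) :=
  main hlam hk hn hq hN

end Pool.Agent.Results.MP_498a73_pr.Yes
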